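import Pool.Agent.K7.H12.UI.Defs

/-!
# Project UI, jobs BOTH1 and BOTH2: the part with both vertices
-/

set_option autoImplicit false

namespace Pool.Agent.K7.H20.UI

open Pool.Agent.K7.H12.UI

section
variable {X V : Type} [Finite X] [Finite V] {F : SimpleGraph X} {G : SimpleGraph V}

lemma pw_nonneg : (0 : ℝ) ≤ (Nat.card V : ℝ) ^ (Nat.card X) := by positivity

lemma err_nonneg (X V : Type) (q : ℕ) : 0 ≤ err X V q := by
  unfold err
  positivity

lemma mu_mono {E E' : (X → V) → Prop} (h : ∀ φ ∈ homs F G E, E' φ) : mu F G E ≤ mu F G E' := by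
  unfold mu
  refine div_le_div_of_nonneg_right ?_ (by positivity)
  have : homs F G E ⊆ homs F G E' := fun φ hφ => ⟨hφ.1, hφ.2.1, h φ hφ⟩
  exact_mod_cast Set.ncard_le_ncard this (Set.toFinite _)

lemma mu_or (E E' : (X → V) → Prop) :
    mu F G (fun φ => E φ ∨ E' φ) ≤ mu F G E + mu F G E' := by
  unfold mu
  rw [← add_div]
  refine div_le_div_of_nonneg_right ?_ (by positivity)
  have : homs F G (fun φ => E φ ∨ E' φ) ⊆ homs F G E ∪ homs F G E' := by
    rintro φ ⟨h1, h2, h3 | h3⟩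
    · exact Or.inl ⟨h1, h2, h3⟩
    · exact Or.inr ⟨h1, h2, h3⟩
  have h2 := (Set.ncard_le_ncard this (Set.toFinite _)).trans (Set.ncard_union_le _ _)
  exact_mod_cast h2

lemma mu_false {E : (X → V) → Prop} (h : ∀ φ, ¬ E φ) : mu F G E = 0 := by
  unfold mu
  have : homs F G E = ∅ := by
    ext φ
    exact ⟨fun hφ => (h φ hφ.2.2).elim, fun hφ => hφ.elim⟩
  rw [this, Set.ncard_empty]
  simp

lemma mu_exists {κ : Type} (T : Finset κ) (E : κ → (X → V) → Prop) :
    mu F G (fun φ => ∃ i ∈ T, E i φ) ≤ ∑ i ∈ T, mu F G (E i) := by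
  classical
  induction T using Finset.induction_on with
  | empty =>
    rw [Finset.sum_empty, mu_false]
    rintro φ ⟨i, hi, -⟩
    exact absurd hi (Finset.notMem_empty i)
  | insert a T ha ih =>
    rw [Finset.sum_insert ha]
    refine (mu_mono (E' := fun φ => E a φ ∨ ∃ i ∈ T, E i φ) ?_).trans
      ((mu_or _ _).trans (add_le_add le_rfl ih))
    rintro φ ⟨-, -, i, hi, h⟩
    rcases Finset.mem_insert.1 hi with rfl | hi
    · exact Or.inl h
    · exact Or.inr ⟨i, hi, h⟩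

/-- transport by a permutation of the vertices -/
lemma mu_perm (σ : Equiv.Perm V) {E E' Eb : (X → V) → Prop}
    (h : ∀ φ ∈ homs F G E, Eb φ ∨ (σ ∘ φ) ∈ homs F G E') :
    mu F G E ≤ mu F G E' + mu F G Eb := by
  unfold mu
  rw [← add_div]
  refine div_le_div_of_nonneg_right ?_ (by positivity)
  have h1 : homs F G E ⊆ (fun φ : X → V => σ.symm ∘ φ) '' homs F G E' ∪ homs F G Eb := by
    intro φ hφ
    rcases h φ hφ with h2 | h2
    · exact Or.inr ⟨hφ.1, hφ.2.1, h2⟩
    · left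
      refine ⟨σ ∘ φ, h2, ?_⟩
      funext x
      exact σ.symm_apply_apply _
  have h2 := (Set.ncard_le_ncard h1 (Set.toFinite _)).trans (Set.ncard_union_le _ _)
  have h3 := Set.ncard_image_le (f := fun φ : X → V => σ.symm ∘ φ) (Set.toFinite (homs F G E'))
  exact_mod_cast h2.trans (Nat.add_le_add_right h3 _)

lemma adj_symm_sd {a b c : V} : c ∈ sd G a b ↔ c ∈ sd G b a := by
  constructor <;>
  · rintro ⟨h1, h2, h3⟩
    exact ⟨h2, h1, fun h => h3 h.symm⟩

end

/-- **BOTH1** -/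
theorem both1 (hUB : StUB) : StBoth1 := by
  classical
  intro X V _ _ F G R Z v v' hne hv hv'
  have : Nonempty V := ⟨v⟩
  have h1 : mu F G (fun φ => E2 R Z v v' φ ∧ ∃ c ∈ sd G v v', c ∈ Set.range φ) ≤
      (sd G v v').ncard * err X V 3 := by
    have h2 := (hUB X V F G (fun φ => E2 R Z v v' φ ∧ ∃ c ∈ sd G v v', c ∈ Set.range φ)
      {v, v'}).2 (sd G v v') (by
        rintro φ - ⟨⟨⟨x, -, hx⟩, h4, -⟩, c, hc, hcr⟩
        refine ⟨?_, c, hc, ?_, hcr⟩
        · intro a ha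
          rcases Finset.mem_insert.1 ha with rfl | ha
          · exact ⟨x, hx⟩
          · rw [Finset.mem_singleton.1 ha]
            exact h4
        · intro hc'
          rcases Finset.mem_insert.1 hc' with rfl | hc'
          · exact hc.1 rfl
          · exact hc.2.1 (Finset.mem_singleton.1 hc'))
    rwa [Finset.card_pair hne] at h2
  refine (mu_perm (E' := E2 R Z v' v) (Equiv.swap v v') ?_).trans (add_le_add le_rfl h1)
  rintro φ ⟨hinj, hhom, hE⟩
  by_cases hc : ∃ c ∈ sd G v v', c ∈ Set.range φ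
  · exact Or.inl ⟨hE, hc⟩
  right
  obtain ⟨⟨x0, hx0, hx0'⟩, ⟨x1, hx1⟩, hZ⟩ := hE
  refine ⟨(Equiv.swap v v').injective.comp hinj, ?_, ⟨x0, hx0, ?_⟩, ⟨x1, ?_⟩, ?_⟩
  · intro x y hxy
    have hadj := hhom x y hxy
    show G.Adj (Equiv.swap v v' (φ x)) (Equiv.swap v v' (φ y))
    have key : ∀ c, c ∈ Set.range φ → c ≠ v → c ≠ v' → (G.Adj v c ↔ G.Adj v' c) := by
      intro c hcr h1 h2
      by_contra h3
      exact hc ⟨c, ⟨h1, h2, h3⟩, hcr⟩
    by_cases hx1' : φ x = v
    · by_cases hy2 : φ y = v'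
      · rw [hx1', hy2, Equiv.swap_apply_left, Equiv.swap_apply_right]
        rw [hx1', hy2] at hadj
        exact hadj.symm
      · have hy1 : φ y ≠ v := by
          intro h
          rw [hx1', h] at hadj
          exact hadj.ne rfl
        rw [hx1', Equiv.swap_apply_left, Equiv.swap_apply_of_ne_of_ne hy1 hy2]
        rw [hx1'] at hadj
        exact (key _ ⟨y, rfl⟩ hy1 hy2).1 hadj
    · by_cases hx2 : φ x = v'
      · by_cases hy1 : φ y = v
        · rw [hx2, hy1, Equiv.swap_apply_left, Equiv.swap_apply_right]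
          rw [hx2, hy1] at hadj
          exact hadj.symm
        · have hy2 : φ y ≠ v' := by
            intro h
            rw [hx2, h] at hadj
            exact hadj.ne rfl
          rw [hx2, Equiv.swap_apply_right, Equiv.swap_apply_of_ne_of_ne hy1 hy2]
          rw [hx2] at hadj
          exact (key _ ⟨y, rfl⟩ hy1 hy2).2 hadj
      · rw [Equiv.swap_apply_of_ne_of_ne hx1' hx2]
        by_cases hy1 : φ y = v
        · rw [hy1, Equiv.swap_apply_left]
          rw [hy1] at hadj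
          exact ((key _ ⟨x, rfl⟩ hx1' hx2).1 hadj.symm).symm
        · by_cases hy2 : φ y = v'
          · rw [hy2, Equiv.swap_apply_right]
            rw [hy2] at hadj
            exact ((key _ ⟨x, rfl⟩ hx1' hx2).2 hadj.symm).symm
          · rw [Equiv.swap_apply_of_ne_of_ne hy1 hy2]
            exact hadj
  · show Equiv.swap v v' (φ x0) = v'
    rw [hx0', Equiv.swap_apply_left]
  · show Equiv.swap v v' (φ x1) = v
    rw [hx1, Equiv.swap_apply_right]
  · rintro z hz ⟨x, hx⟩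
    have hzv : z ≠ v := fun h => hv (h ▸ hz)
    have hzv' : z ≠ v' := fun h => hv' (h ▸ hz)
    have h3 : φ x = z := by
      have h4 : Equiv.swap v v' (φ x) = z := hx
      rw [Equiv.swap_apply_eq_iff, Equiv.swap_apply_of_ne_of_ne hzv hzv'] at h4
      exact h4
    exact hZ z hz ⟨x, h3⟩

section
open Classical in
/-- the permutation of BOTH2 -/
noncomputable def sg {V ι : Type} (v v' : V) (I : Finset ι) (f f' : ι → V) (c : V) : V :=
  if c = v then v' else if c = v' then v else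
    if h : ∃ i ∈ I, f i = c then f' h.choose else if h : ∃ i ∈ I, f' i = c then f h.choose else c

variable {V ι : Type} {v v' : V} {I : Finset ι} {f f' : ι → V}

lemma sg_v : sg v v' I f f' v = v' := if_pos rfl

lemma sg_v' : sg v v' I f f' v' = v := by
  unfold sg
  by_cases h : v' = v
  · rw [if_pos h, h]
  · rw [if_neg h, if_pos rfl]

lemma sg_f (h1 : Set.InjOn f I) {i : ι} (hi : i ∈ I) (hv : f i ≠ v) (hv' : f i ≠ v') :
    sg v v' I f f' (f i) = f' i := by
  unfold sg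
  have h : ∃ j ∈ I, f j = f i := ⟨i, hi, rfl⟩
  rw [if_neg hv, if_neg hv', dif_pos h]
  congr 1
  exact h1 h.choose_spec.1 hi h.choose_spec.2

lemma sg_f' (h2 : Set.InjOn f' I) (h3 : ∀ i ∈ I, ∀ j ∈ I, f i ≠ f' j) {i : ι} (hi : i ∈ I)
    (hv : f' i ≠ v) (hv' : f' i ≠ v') : sg v v' I f f' (f' i) = f i := by
  unfold sg
  have h : ∃ j ∈ I, f' j = f' i := ⟨i, hi, rfl⟩
  have hn : ¬ ∃ j ∈ I, f j = f' i := by
    rintro ⟨j, hj, h⟩
    exact h3 j hj i hi h
  rw [if_neg hv, if_neg hv', dif_neg hn, dif_pos h]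
  congr 1
  exact h2 h.choose_spec.1 hi h.choose_spec.2

lemma sg_o {c : V} (hv : c ≠ v) (hv' : c ≠ v') (h : ∀ i ∈ I, f i ≠ c) (h' : ∀ i ∈ I, f' i ≠ c) :
    sg v v' I f f' c = c := by
  unfold sg
  have hn : ¬ ∃ j ∈ I, f j = c := by
    rintro ⟨j, hj, h1⟩
    exact h j hj h1
  have hn' : ¬ ∃ j ∈ I, f' j = c := by
    rintro ⟨j, hj, h1⟩
    exact h' j hj h1
  rw [if_neg hv, if_neg hv', dif_neg hn, dif_neg hn']

end

/-- **BOTH2** -/
theorem both2 (hUB : StUB) : StBoth2 := by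
  classical
  intro X V _ _ F G R v v' hne ι I f f' hf hf' hff hN hN'
  have : Nonempty V := ⟨v⟩
  have fa : ∀ i ∈ I, G.Adj v (f i) ∧ ¬ G.Adj v' (f i) ∧ f i ≠ v' := fun i hi =>
    (hN (f i)).1 ⟨i, hi, rfl⟩
  have fa' : ∀ i ∈ I, G.Adj v' (f' i) ∧ ¬ G.Adj v (f' i) ∧ f' i ≠ v := fun i hi =>
    (hN' (f' i)).1 ⟨i, hi, rfl⟩
  have fv : ∀ i ∈ I, f i ≠ v := fun i hi h => by
    have := (fa i hi).1
    rw [h] at this
    exact this.ne rfl
  have fv' : ∀ i ∈ I, f' i ≠ v' := fun i hi h => by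
    have := (fa' i hi).1
    rw [h] at this
    exact this.ne rfl
  set σ0 : V → V := sg v v' I f f' with hσ0
  have s1 : σ0 v = v' := sg_v
  have s2 : σ0 v' = v := sg_v'
  have s3 : ∀ i ∈ I, σ0 (f i) = f' i := fun i hi => sg_f hf hi (fv i hi) (fa i hi).2.2
  have s4 : ∀ i ∈ I, σ0 (f' i) = f i := fun i hi => sg_f' hf' hff hi (fa' i hi).2.2 (fv' i hi)
  have s5 : ∀ c, c ≠ v → c ≠ v' → (∀ i ∈ I, f i ≠ c) → (∀ i ∈ I, f' i ≠ c) → σ0 c = c :=
    fun c => sg_o
  have hinv : Function.Involutive σ0 := by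
    intro c
    by_cases h1 : c = v
    · rw [h1, s1, s2]
    by_cases h2 : c = v'
    · rw [h2, s2, s1]
    by_cases h3 : ∃ i ∈ I, f i = c
    · obtain ⟨i, hi, rfl⟩ := h3
      rw [s3 i hi, s4 i hi]
    by_cases h4 : ∃ i ∈ I, f' i = c
    · obtain ⟨i, hi, rfl⟩ := h4
      rw [s4 i hi, s3 i hi]
    push Not at h3 h4
    rw [s5 c h1 h2 h3 h4, s5 c h1 h2 h3 h4]
  let σ : Equiv.Perm V := hinv.toPerm
  have hσ : ∀ c, σ c = σ0 c := fun c => rfl
  -- the bad event of a vertex `z`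
  let S : V → Set V := fun z => sd G z (σ0 z) ∪ σ0 '' sd G z (σ0 z)
  let Ez : V → (X → V) → Prop := fun z φ => E2 R ∅ v v' φ ∧ z ∈ Set.range φ ∧
    ∃ c ∈ S z, c ≠ v ∧ c ≠ v' ∧ c ≠ z ∧ c ∈ Set.range φ
  have hEz : ∀ z, z ≠ v → z ≠ v' → mu F G (Ez z) ≤ (2 * (sd G z (σ0 z)).ncard : ℝ) * err X V 4 := by
    intro z hz hz'
    have hcard : ({v, v', z} : Finset V).card = 3 := Finset.card_eq_three.2
      ⟨v, v', z, hne, hz.symm, hz'.symm, rfl⟩
    have h2 := (hUB X V F G (Ez z) {v, v', z}).2 (S z) (by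
        rintro φ - ⟨⟨⟨x, -, hx⟩, h4, -⟩, hzr, c, hc, hc1, hc2, hc3, hcr⟩
        refine ⟨?_, c, hc, ?_, hcr⟩
        · intro a ha
          simp only [Finset.mem_insert, Finset.mem_singleton] at ha
          rcases ha with rfl | rfl | rfl
          · exact ⟨x, hx⟩
          · exact h4
          · exact hzr
        · intro hc'
          simp only [Finset.mem_insert, Finset.mem_singleton] at hc'
          rcases hc' with h | h | h
          · exact hc1 h
          · exact hc2 h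
          · exact hc3 h)
    rw [hcard] at h2
    refine h2.trans (mul_le_mul_of_nonneg_right ?_ (err_nonneg X V 4))
    have h3 : (S z).ncard ≤ (sd G z (σ0 z)).ncard + (sd G z (σ0 z)).ncard :=
      (Set.ncard_union_le _ _).trans (Nat.add_le_add_left (Set.ncard_image_le (Set.toFinite _)) _)
    have h4 : ((S z).ncard : ℝ) ≤ ((sd G z (σ0 z)).ncard : ℝ) + ((sd G z (σ0 z)).ncard : ℝ) := by
      exact_mod_cast h3
    linarith
  -- the bad events together
  have hbad : mu F G (fun φ => ∃ i ∈ I, Ez (f i) φ ∨ Ez (f' i) φ) ≤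
      4 * (∑ i ∈ I, ((sd G (f i) (f' i)).ncard : ℝ)) * err X V 4 := by
    refine (mu_exists I fun i φ => Ez (f i) φ ∨ Ez (f' i) φ).trans ?_
    rw [Finset.mul_sum, Finset.sum_mul]
    refine Finset.sum_le_sum fun i hi => ?_
    refine (mu_or _ _).trans ?_
    have h1 := hEz (f i) (fv i hi) (fa i hi).2.2
    have h2 := hEz (f' i) (fa' i hi).2.2 (fv' i hi)
    rw [s3 i hi] at h1
    rw [s4 i hi] at h2
    have h3 : sd G (f' i) (f i) = sd G (f i) (f' i) := by
      ext c
      exact adj_symm_sd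
    rw [h3] at h2
    linarith
  refine (mu_perm (E' := E2 R ∅ v' v) σ ?_).trans (add_le_add le_rfl hbad)
  rintro φ ⟨hinj, hhom, hE⟩
  by_cases hc : ∃ i ∈ I, Ez (f i) φ ∨ Ez (f' i) φ
  · exact Or.inl hc
  right
  have hE' := hE
  obtain ⟨⟨x0, hx0, hx0'⟩, ⟨x1, hx1⟩, hZ⟩ := hE'
  refine ⟨σ.injective.comp hinj, ?_, ⟨x0, hx0, ?_⟩, ⟨x1, ?_⟩, ?_⟩
  · -- no edge is broken
    have hsup : ∀ z, z ≠ v → z ≠ v' → σ0 z ≠ z → z ∈ Set.range φ →
        ∀ c ∈ S z, c ≠ v → c ≠ v' → c ≠ z → c ∈ Set.range φ → False := by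
      intro z hz hz' hzs hzr c hcS hc1 hc2 hc3 hcr
      by_cases h3 : ∃ i ∈ I, f i = z
      · obtain ⟨i, hi, rfl⟩ := h3
        exact hc ⟨i, hi, Or.inl ⟨hE, hzr, c, hcS, hc1, hc2, hc3, hcr⟩⟩
      by_cases h4 : ∃ i ∈ I, f' i = z
      · obtain ⟨i, hi, rfl⟩ := h4
        exact hc ⟨i, hi, Or.inr ⟨hE, hzr, c, hcS, hc1, hc2, hc3, hcr⟩⟩
      push Not at h3 h4
      exact hzs (s5 z hz hz' h3 h4)
    -- edges at `v` and `v'`
    have hv1 : ∀ c, c ≠ v → c ≠ v' → G.Adj v c → G.Adj v' (σ0 c) := by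
      intro c h1 h2 h3
      by_cases h4 : G.Adj v' c
      · rw [s5 c h1 h2]
        · exact h4
        · rintro i hi rfl
          exact (fa i hi).2.1 h4
        · rintro i hi rfl
          exact (fa' i hi).2.1 h3
      · obtain ⟨i, hi, rfl⟩ := (hN c).2 ⟨h3, h4, h2⟩
        rw [s3 i hi]
        exact (fa' i hi).1
    have hv2 : ∀ c, c ≠ v → c ≠ v' → G.Adj v' c → G.Adj v (σ0 c) := by
      intro c h1 h2 h3
      by_cases h4 : G.Adj v c
      · rw [s5 c h1 h2]
        · exact h4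
        · rintro i hi rfl
          exact (fa i hi).2.1 h3
        · rintro i hi rfl
          exact (fa' i hi).2.1 h4
      · obtain ⟨i, hi, rfl⟩ := (hN' c).2 ⟨h3, h4, h1⟩
        rw [s4 i hi]
        exact (fa i hi).1
    -- other edges
    have hoth : ∀ a b, a ∈ Set.range φ → b ∈ Set.range φ → a ≠ v → a ≠ v' → b ≠ v → b ≠ v' →
        σ0 a ≠ a → G.Adj a b → G.Adj (σ0 a) (σ0 b) := by
      intro a b ha hb a1 a2 b1 b2 has hab
      by_contra hbr
      by_cases hba : b = σ0 a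
      · apply hbr
        rw [hba, hinv a, ← hba]
        exact hab.symm
      by_cases h1 : G.Adj (σ0 a) b
      · have hbs : σ0 b ≠ b := by
          intro h
          rw [h] at hbr
          exact hbr h1
        -- `σ a ∈ sd b (σ b)`
        have h2 : σ0 a ∈ sd G b (σ0 b) := by
          refine ⟨fun h => hba h.symm, fun h => hab.ne (hinv.injective h), fun h => hbr ?_⟩
          exact (h.1 h1.symm).symm
        refine hsup b b1 b2 hbs hb a (Or.inr ⟨σ0 a, h2, hinv a⟩) a1 a2 hab.ne ha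
      · have h2 : b ∈ sd G a (σ0 a) := ⟨hab.ne.symm, hba, fun h => h1 (h.1 hab)⟩
        exact hsup a a1 a2 has ha b (Or.inl h2) b1 b2 hab.ne.symm hb
    intro x y hxy
    have hadj := hhom x y hxy
    show G.Adj (σ0 (φ x)) (σ0 (φ y))
    by_cases hxv : φ x = v
    · by_cases hyv' : φ y = v'
      · rw [hxv, hyv', s1, s2]
        rw [hxv, hyv'] at hadj
        exact hadj.symm
      · have hyv : φ y ≠ v := by
          intro h
          rw [hxv, h] at hadj
          exact hadj.ne rfl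
        rw [hxv, s1]
        rw [hxv] at hadj
        exact hv1 _ hyv hyv' hadj
    by_cases hxv' : φ x = v'
    · by_cases hyv : φ y = v
      · rw [hxv', hyv, s1, s2]
        rw [hxv', hyv] at hadj
        exact hadj.symm
      · have hyv' : φ y ≠ v' := by
          intro h
          rw [hxv', h] at hadj
          exact hadj.ne rfl
        rw [hxv', s2]
        rw [hxv'] at hadj
        exact hv2 _ hyv hyv' hadj
    by_cases hyv : φ y = v
    · rw [hyv, s1]
      rw [hyv] at hadj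
      exact (hv1 _ hxv hxv' hadj.symm).symm
    by_cases hyv' : φ y = v'
    · rw [hyv', s2]
      rw [hyv'] at hadj
      exact (hv2 _ hxv hxv' hadj.symm).symm
    by_cases hxs : σ0 (φ x) = φ x
    · by_cases hys : σ0 (φ y) = φ y
      · rw [hxs, hys]
        exact hadj
      · exact (hoth _ _ ⟨y, rfl⟩ ⟨x, rfl⟩ hyv hyv' hxv hxv' hys hadj.symm).symm
    · exact hoth _ _ ⟨x, rfl⟩ ⟨y, rfl⟩ hxv hxv' hyv hyv' hxs hadj
  · show σ0 (φ x0) = v'
    rw [hx0', s1]
  · show σ0 (φ x1) = v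
    rw [hx1, s2]
  · intro z hz
    exact hz.elim

end Pool.Agent.K7.H20.UI
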